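import Pool.Agent.Helper20.IIC.Stmts

/-! # Module LIMC: connections in infinite volume -/

namespace IIC

open Filter Topology Set MeasureTheory
open scoped BigOperators

/-- The configuration in which all the edges off `B` are open. -/
noncomputable def LIMC_o {d : ℕ} (B : Finset (Ed d)) (ω : Cfg d) : Cfg d := by
  classical exact fun e => if e ∈ B then ω e else true

/-- The configuration in which all the edges off `B` are closed. -/
noncomputable def LIMC_c {d : ℕ} (B : Finset (Ed d)) (ω : Cfg d) : Cfg d := by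
  classical exact fun e => if e ∈ B then ω e else false

theorem LIMC_o_mem {d : ℕ} {B : Finset (Ed d)} {ω : Cfg d} {e : Ed d} (h : e ∈ B) :
    LIMC_o B ω e = ω e := by
  classical
  unfold LIMC_o
  rw [if_pos h]

theorem LIMC_o_nmem {d : ℕ} {B : Finset (Ed d)} {ω : Cfg d} {e : Ed d} (h : e ∉ B) :
    LIMC_o B ω e = true := by
  classical
  unfold LIMC_o
  rw [if_neg h]

theorem LIMC_c_mem {d : ℕ} {B : Finset (Ed d)} {ω : Cfg d} {e : Ed d} (h : e ∈ B) :
    LIMC_c B ω e = ω e := by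
  classical
  unfold LIMC_c
  rw [if_pos h]

theorem LIMC_c_nmem {d : ℕ} {B : Finset (Ed d)} {ω : Cfg d} {e : Ed d} (h : e ∉ B) :
    LIMC_c B ω e = false := by
  classical
  unfold LIMC_c
  rw [if_neg h]

/-- Finitely many edges at a vertex. -/
theorem LIMC_fin {d : ℕ} (v : Fin d → ℤ) : {e : Ed d | v ∈ le e}.Finite := by
  classical
  have hfin : (Finset.Icc (v - 1) (v + 1) : Set (Fin d → ℤ)).Finite :=
    Finset.finite_toSet _
  have h2 : ((fun w => s(v, w)) '' (Finset.Icc (v - 1) (v + 1) : Set (Fin d → ℤ))).Finite :=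
    hfin.image _
  refine Set.Finite.of_finite_image (f := fun e : Ed d => le e) (h2.subset ?_)
    (fun a _ b _ h => Subtype.ext h)
  rintro _ ⟨e, he, rfl⟩
  obtain ⟨w, hw⟩ := Sym2.mem_iff_exists.1 he
  refine ⟨w, ?_, hw.symm⟩
  have hadj : (lat d).Adj v w := by
    have := e.2
    rw [show (e : Sym2 (Fin d → ℤ)) = s(v, w) from hw] at this
    exact (SimpleGraph.mem_edgeSet _).1 this
  have hs : ∑ i, |v i - w i| = 1 := hadj
  have hi : ∀ i, |v i - w i| ≤ 1 := by
    intro i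
    rw [← hs]
    exact Finset.single_le_sum (f := fun i => |v i - w i|) (fun j _ => abs_nonneg _)
      (Finset.mem_univ i)
  rw [Finset.coe_Icc, Set.mem_Icc]
  constructor
  · intro i
    have := abs_le.1 (hi i)
    simp only [Pi.sub_apply, Pi.one_apply]
    linarith [this.2]
  · intro i
    have := abs_le.1 (hi i)
    simp only [Pi.add_apply, Pi.one_apply]
    linarith [this.1]

/-- If the cluster of `x` is finite and `B` contains all the edges touching it, then
connections of `x` in `LIMC_o B ω` are connections in `ω`. -/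
theorem LIMC_esc {d : ℕ} {B : Finset (Ed d)} {ω : Cfg d} {x : Fin d → ℤ}
    (hB : ∀ v, LConn ω x v → ∀ e : Ed d, v ∈ le e → e ∈ B) (y : Fin d → ℤ)
    (h : LConn (LIMC_o B ω) x y) : LConn ω x y := by
  unfold LConn Conn at h
  induction h with
  | refl => exact Relation.ReflTransGen.refl
  | tail _ hbc ih =>
    obtain ⟨e, he, hee⟩ := hbc
    refine Relation.ReflTransGen.tail ih ⟨e, ?_, hee⟩
    have hm := hB _ ih e (by rw [hee]; exact Sym2.mem_mk_left _ _)
    have he' : LIMC_o B ω e = true := he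
    rw [LIMC_o_mem hm] at he'
    exact he'

theorem LIMC_symm {d : ℕ} {ω : Cfg d} {x y : Fin d → ℤ} (h : LConn ω x y) : LConn ω y x := by
  unfold LConn Conn at *
  induction h with
  | refl => exact Relation.ReflTransGen.refl
  | tail _ hbc ih =>
    obtain ⟨e, he, hee⟩ := hbc
    exact Relation.ReflTransGen.head ⟨e, he, by rw [hee, Sym2.eq_swap]⟩ ih

/-- A connection uses finitely many edges. -/
theorem LIMC_loc {d : ℕ} {B : ℕ → Finset (Ed d)} (hm : Monotone B) (hB : ∀ e, ∃ n, e ∈ B n)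
    {ω : Cfg d} {x y : Fin d → ℤ} (h : LConn ω x y) : ∃ n, LConn (LIMC_c (B n) ω) x y := by
  unfold LConn Conn at h
  induction h with
  | refl => exact ⟨0, Relation.ReflTransGen.refl⟩
  | tail _ hbc ih =>
    obtain ⟨n, hn⟩ := ih
    obtain ⟨e, he, hee⟩ := hbc
    obtain ⟨m, hm'⟩ := hB e
    refine ⟨max n m, Relation.ReflTransGen.tail ?_ ⟨e, ?_, hee⟩⟩
    · unfold LConn Conn at hn
      refine Relation.ReflTransGen.mono ?_ _ _ hn
      rintro a b ⟨f, hf, hff⟩
      refine ⟨f, ?_, hff⟩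
      have hf' : LIMC_c (B n) ω f = true := hf
      by_cases hfn : f ∈ B n
      · change LIMC_c (B (max n m)) ω f = true
        rw [LIMC_c_mem (hm (le_max_left n m) hfn)]
        rwa [LIMC_c_mem hfn] at hf'
      · rw [LIMC_c_nmem hfn] at hf'
        exact absurd hf' (by simp)
    · change LIMC_c (B (max n m)) ω e = true
      rw [LIMC_c_mem (hm (le_max_right n m) hm')]
      exact he

/-- An exhaustion by finite sets of edges. -/
theorem LIMC_exh (d : ℕ) : ∃ B : ℕ → Finset (Ed d), Monotone B ∧ ∀ e, ∃ n, e ∈ B n := by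
  classical
  obtain ⟨f, hf⟩ := exists_injective_nat (Ed d)
  have hfin : ∀ n : ℕ, (f ⁻¹' Set.Iic n).Finite := fun n =>
    (Set.finite_Iic n).preimage hf.injOn
  refine ⟨fun n => (hfin n).toFinset, ?_, fun e => ⟨f e, ?_⟩⟩
  · intro n m hnm e he
    simp only [Set.Finite.mem_toFinset, Set.mem_preimage, Set.mem_Iic] at he ⊢
    exact he.trans hnm
  · simp

theorem LIMC_o_le {d : ℕ} {B : Finset (Ed d)} {ω ω' : Cfg d} (h : ω ≤ ω') :
    LIMC_o B ω ≤ LIMC_o B ω' := by
  intro e
  by_cases he : e ∈ B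
  · rw [LIMC_o_mem he, LIMC_o_mem he]
    exact h e
  · rw [LIMC_o_nmem he, LIMC_o_nmem he]

theorem LIMC_c_le {d : ℕ} {B : Finset (Ed d)} {ω ω' : Cfg d} (h : ω ≤ ω') :
    LIMC_c B ω ≤ LIMC_c B ω' := by
  intro e
  by_cases he : e ∈ B
  · rw [LIMC_c_mem he, LIMC_c_mem he]
    exact h e
  · rw [LIMC_c_nmem he, LIMC_c_nmem he]

theorem LIMC_le_o {d : ℕ} (B : Finset (Ed d)) (ω : Cfg d) : ω ≤ LIMC_o B ω := by
  intro e
  by_cases he : e ∈ B
  · rw [LIMC_o_mem he]
  · rw [LIMC_o_nmem he]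
    exact Bool.le_true _

theorem LIMC_c_le' {d : ℕ} (B : Finset (Ed d)) (ω : Cfg d) : LIMC_c B ω ≤ ω := by
  intro e
  by_cases he : e ∈ B
  · rw [LIMC_c_mem he]
  · rw [LIMC_c_nmem he]
    exact Bool.false_le _

theorem LIMC_o_anti {d : ℕ} {B B' : Finset (Ed d)} (h : B ⊆ B') (ω : Cfg d) :
    LIMC_o B' ω ≤ LIMC_o B ω := by
  intro e
  by_cases he : e ∈ B
  · rw [LIMC_o_mem he, LIMC_o_mem (h he)]
  · rw [LIMC_o_nmem he]
    exact Bool.le_true _

theorem LIMC_c_mono {d : ℕ} {B B' : Finset (Ed d)} (h : B ⊆ B') (ω : Cfg d) :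
    LIMC_c B ω ≤ LIMC_c B' ω := by
  intro e
  by_cases he : e ∈ B
  · rw [LIMC_c_mem he, LIMC_c_mem (h he)]
  · rw [LIMC_c_nmem he]
    exact Bool.false_le _

theorem st_LIMC (hLIM : ST_LIM) (hMEAS : ST_MEAS) (hCONT : ST_CONT) (hUPS : ST_UPS) :
    ST_LIMC := by
  classical
  intro d _ β hβ μ hμ h0 K x y
  have := hμ.1
  obtain ⟨B, hBm, hBe⟩ := LIMC_exh d
  have hup : IsUpperSet (CN x y : Set (Cfg d)) := (hUPS d x y K).1
  have hupK : IsUpperSet (UF K : Set (Cfg d)) := (hUPS d x y K).2.2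
  set H : ℕ → Set (Cfg d) := fun n => UF K ∩ {ω | LConn (LIMC_c (B n) ω) x y} with hH
  set G : ℕ → Set (Cfg d) := fun n => UF K ∩ {ω | LConn (LIMC_o (B n) ω) x y} with hG
  have hupH : ∀ n, IsUpperSet (H n) := by
    intro n
    refine hupK.inter ?_
    intro ω ω' hle h
    exact hup (LIMC_c_le hle) h
  have hupG : ∀ n, IsUpperSet (G n) := by
    intro n
    refine hupK.inter ?_
    intro ω ω' hle h
    exact hup (LIMC_o_le hle) h
  have hcylH : ∀ n, IsCyl (H n) := by
    intro n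
    refine ⟨K ∪ B n, fun ω ω' h => ?_⟩
    have h1 : LIMC_c (B n) ω = LIMC_c (B n) ω' := by
      funext e
      by_cases he : e ∈ B n
      · rw [LIMC_c_mem he, LIMC_c_mem he]
        exact h e (Finset.mem_union_right _ he)
      · rw [LIMC_c_nmem he, LIMC_c_nmem he]
    have h2 : ω ∈ UF K ↔ ω' ∈ UF K := by
      constructor
      · intro hh e he
        rw [← h e (Finset.mem_union_left _ he)]
        exact hh e he
      · intro hh e he
        rw [h e (Finset.mem_union_left _ he)]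
        exact hh e he
    simp only [hH, Set.mem_inter_iff, Set.mem_ofPred_eq, h1, h2]
  have hcylG : ∀ n, IsCyl (G n) := by
    intro n
    refine ⟨K ∪ B n, fun ω ω' h => ?_⟩
    have h1 : LIMC_o (B n) ω = LIMC_o (B n) ω' := by
      funext e
      by_cases he : e ∈ B n
      · rw [LIMC_o_mem he, LIMC_o_mem he]
        exact h e (Finset.mem_union_right _ he)
      · rw [LIMC_o_nmem he, LIMC_o_nmem he]
    have h2 : ω ∈ UF K ↔ ω' ∈ UF K := by
      constructor
      · intro hh e he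
        rw [← h e (Finset.mem_union_left _ he)]
        exact hh e he
      · intro hh e he
        rw [h e (Finset.mem_union_left _ he)]
        exact hh e he
    simp only [hG, Set.mem_inter_iff, Set.mem_ofPred_eq, h1, h2]
  have hHsub : ∀ n, H n ⊆ UF K ∩ CN x y := by
    intro n ω hω
    exact ⟨hω.1, hup (LIMC_c_le' _ _) hω.2⟩
  have hGsub : ∀ n, UF K ∩ CN x y ⊆ G n := by
    intro n ω hω
    exact ⟨hω.1, hup (LIMC_le_o _ _) hω.2⟩
  have hlim := ((hLIM d β hβ).1 (UF K ∩ CN x y) (hupK.inter hup)).1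
  have hmono := fun Λ : Finset (Ed d) => ((hCONT d Λ).2 β hβ).2.2.1
  have ha : ∀ n, μ.real (H n) ≤ mW β (UF K ∩ CN x y) := fun n =>
    le_of_tendsto_of_tendsto (hμ.2 _ (hcylH n)) hlim
      (Eventually.of_forall fun Λ => hmono Λ _ _ (hHsub n))
  have hb : ∀ n, mW β (UF K ∩ CN x y) ≤ μ.real (G n) := fun n =>
    le_of_tendsto_of_tendsto hlim (hμ.2 _ (hcylG n))
      (Eventually.of_forall fun Λ => hmono Λ _ _ (hGsub n))
  have hmH : Monotone H := by
    intro n m hnm ω hω
    exact ⟨hω.1, hup (LIMC_c_mono (hBm hnm) ω) hω.2⟩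
  have hmG : Antitone G := by
    intro n m hnm ω hω
    exact ⟨hω.1, hup (LIMC_o_anti (hBm hnm) ω) hω.2⟩
  have hc : Tendsto (fun n => μ.real (H n)) atTop (𝓝 (μ.real (⋃ n, H n))) := by
    have := tendsto_measure_iUnion_atTop (μ := μ) hmH
    exact (ENNReal.tendsto_toReal (measure_ne_top μ _)).comp this
  have hd : Tendsto (fun n => μ.real (G n)) atTop (𝓝 (μ.real (⋂ n, G n))) := by
    have := tendsto_measure_iInter_atTop (μ := μ)
      (fun n => ((hMEAS d).1 _ (hcylG n)).nullMeasurableSet) hmG ⟨0, measure_ne_top μ _⟩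
    exact (ENNReal.tendsto_toReal (measure_ne_top μ _)).comp this
  have hU : (⋃ n, H n) = UF K ∩ CN x y := by
    apply Set.Subset.antisymm
    · exact Set.iUnion_subset hHsub
    · intro ω hω
      obtain ⟨n, hn⟩ := LIMC_loc hBm hBe hω.2
      exact Set.mem_iUnion.2 ⟨n, hω.1, hn⟩
  have key : ∀ ω : Cfg d, ∀ a b : Fin d → ℤ, (∀ n, LConn (LIMC_o (B n) ω) a b) →
      ¬ LConn ω a b → Infin ω a := by
    intro ω a b hab hnab
    by_contra hfin
    unfold Infin at hfin
    rw [Set.not_infinite] at hfin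
    have hE : (⋃ v ∈ {z | LConn ω a z}, {e : Ed d | v ∈ le e}).Finite :=
      hfin.biUnion fun v _ => LIMC_fin v
    obtain ⟨n, hn⟩ : ∃ n, ∀ e ∈ (⋃ v ∈ {z | LConn ω a z}, {e : Ed d | v ∈ le e}), e ∈ B n := by
      refine hE.induction_on_subset (motive := fun s _ => ∃ n, ∀ e ∈ s, e ∈ B n) _
        ⟨0, fun e he => absurd he (Set.notMem_empty e)⟩ ?_
      intro e s _ _ _ ⟨n, hn⟩
      obtain ⟨m, hm⟩ := hBe e
      refine ⟨max n m, fun f hf => ?_⟩
      rcases Set.mem_insert_iff.1 hf with rfl | hf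
      · exact hBm (le_max_right n m) hm
      · exact hBm (le_max_left n m) (hn f hf)
    refine hnab (LIMC_esc (B := B n) ?_ b (hab n))
    intro v hv e he
    exact hn e (Set.mem_biUnion (show v ∈ {z | LConn ω a z} from hv) he)
  have hI : (⋂ n, G n) ⊆ (UF K ∩ CN x y) ∪ (IN x ∩ IN y ∩ (CN x y)ᶜ) := by
    intro ω hω
    have hω' := Set.mem_iInter.1 hω
    by_cases hxy : LConn ω x y
    · exact Or.inl ⟨(hω' 0).1, hxy⟩
    · refine Or.inr ⟨⟨?_, ?_⟩, hxy⟩
      · exact key ω x y (fun n => (hω' n).2) hxy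
      · exact key ω y x (fun n => LIMC_symm (hω' n).2) (fun h => hxy (LIMC_symm h))
  have hIle : μ.real (⋂ n, G n) ≤ μ.real (UF K ∩ CN x y) := by
    calc μ.real (⋂ n, G n) ≤ μ.real ((UF K ∩ CN x y) ∪ (IN x ∩ IN y ∩ (CN x y)ᶜ)) :=
          measureReal_mono hI
      _ ≤ μ.real (UF K ∩ CN x y) + μ.real (IN x ∩ IN y ∩ (CN x y)ᶜ) := measureReal_union_le _ _
      _ = μ.real (UF K ∩ CN x y) := by
          rw [measureReal_def μ (IN x ∩ IN y ∩ (CN x y)ᶜ), h0 x y]
          simp
  apply le_antisymm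
  · rw [hU] at hc
    exact le_of_tendsto' hc ha
  · exact (ge_of_tendsto' hd hb).trans hIle

end IIC
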